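import Pool.Agent.Lib_MP_e73b0e_gp.Idem

/-! The core: three eigenvalues in geometric progression. -/

set_option autoImplicit false

open Polynomial

namespace Pool.Agent.GeoProg

variable {K R : Type} [Field K] [Ring R] [Algebra K R]

/-- `t ^ j` for `t = ω⁻¹ e1 + e2 + ω e3` -/
def tt (ω : K) (e1 e2 e3 : R) (j : ℕ) : R := (ω⁻¹) ^ j • e1 + e2 + ω ^ j • e3

/-- the hypotheses of the core -/
structure Data (p h : ℕ) (x y e1 e2 e3 : R) (β ω : K) : Prop where
  p_eq : p = 2 * h + 1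
  h_pos : 0 < h
  prime : p.Prime
  pK : (p : K) ≠ 0
  xy : x * y = 1
  yx : y * x = 1
  e11 : e1 * e1 = e1
  e22 : e2 * e2 = e2
  e33 : e3 * e3 = e3
  e12 : e1 * e2 = 0
  e13 : e1 * e3 = 0
  e21 : e2 * e1 = 0
  e23 : e2 * e3 = 0
  e31 : e3 * e1 = 0
  e32 : e3 * e2 = 0
  sum : e1 + e2 + e3 = 1
  bp : β ^ p = 1
  b1 : β ≠ 1
  om : IsPrimitiveRoot ω p
  o1 : β * ω⁻¹ = 1 → e1 = 0
  o3 : β * ω = 1 → e3 = 0
  reg : ∀ j < p, ∑ i ∈ Finset.range p, (x * (β ^ j • tt ω e1 e2 e3 j)) ^ i = 0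

variable {p h : ℕ} {x y e1 e2 e3 : R} {β ω : K}

theorem Data.swap (D : Data p h x y e1 e2 e3 β ω) : Data p h x y e3 e2 e1 β ω⁻¹ where
  p_eq := D.p_eq
  h_pos := D.h_pos
  prime := D.prime
  pK := D.pK
  xy := D.xy
  yx := D.yx
  e11 := D.e33
  e22 := D.e22
  e33 := D.e11
  e12 := D.e32
  e13 := D.e31
  e21 := D.e23
  e23 := D.e21
  e31 := D.e13
  e32 := D.e12
  sum := by
    rw [← D.sum]
    abel
  bp := D.bp
  b1 := D.b1
  om := D.om.inv
  o1 := by
    rw [inv_inv]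
    exact D.o3
  o3 := D.o1
  reg := by
    intro j hj
    have h1 : tt ω⁻¹ e3 e2 e1 j = tt ω e1 e2 e3 j := by
      unfold tt
      rw [inv_inv]
      abel
    rw [h1]
    exact D.reg j hj

/-- `x t(w)`, times `w` -/
noncomputable def gg (x e1 e2 e3 : R) : R[X] := monomial 0 (x * e1) + monomial 1 (x * e2) + monomial 2 (x * e3)

/-- `w ^ 2` times its inverse -/
noncomputable def gi (y e1 e2 e3 : R) : R[X] := monomial 2 (e1 * y) + monomial 1 (e2 * y) + monomial 0 (e3 * y)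

/-- the difference -/
noncomputable def PP (h : ℕ) (x y e1 e2 e3 : R) : R[X] :=
  gg x e1 e2 e3 ^ (h + 1) - X * gi y e1 e2 e3 ^ h

theorem gg_deg (x e1 e2 e3 : R) : (gg x e1 e2 e3).natDegree ≤ 2 := by
  unfold gg
  refine (Polynomial.natDegree_add_le_of_degree_le (Polynomial.natDegree_add_le_of_degree_le ?_ ?_) ?_)
  · exact (Polynomial.natDegree_monomial_le _).trans (by omega)
  · exact (Polynomial.natDegree_monomial_le _).trans (by omega)
  · exact (Polynomial.natDegree_monomial_le _)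

theorem gi_deg (y e1 e2 e3 : R) : (gi y e1 e2 e3).natDegree ≤ 2 := by
  unfold gi
  refine (Polynomial.natDegree_add_le_of_degree_le (Polynomial.natDegree_add_le_of_degree_le ?_ ?_) ?_)
  · exact (Polynomial.natDegree_monomial_le _)
  · exact (Polynomial.natDegree_monomial_le _).trans (by omega)
  · exact (Polynomial.natDegree_monomial_le _).trans (by omega)

theorem ev_monomial (w : K) (n : ℕ) (a : R) : ev w (monomial n a) = w ^ n • a := by
  rw [← Polynomial.C_mul_X_pow_eq_monomial, map_mul, map_pow, ev_C, ev_X, ← map_pow, ← Algebra.commutes,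
    Algebra.smul_def]

theorem ev_gg (x e1 e2 e3 : R) {ω : K} (hω : ω ≠ 0) (j : ℕ) :
    ev (ω ^ j) (gg x e1 e2 e3) = ω ^ j • (x * tt ω e1 e2 e3 j) := by
  have h1 : ω ^ j * (ω⁻¹) ^ j = 1 := by
    rw [← mul_pow, mul_inv_cancel₀ hω, one_pow]
  unfold gg tt
  rw [map_add, map_add, ev_monomial, ev_monomial, ev_monomial, mul_add, mul_add, mul_smul_comm, mul_smul_comm,
    smul_add, smul_add, smul_smul, smul_smul, h1, pow_zero, pow_one, sq]

theorem ev_gi (y e1 e2 e3 : R) {ω : K} (hω : ω ≠ 0) (j : ℕ) :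
    ev (ω ^ j) (gi y e1 e2 e3) = ω ^ j • (tt ω⁻¹ e1 e2 e3 j * y) := by
  have h1 : ω ^ j * (ω⁻¹) ^ j = 1 := by
    rw [← mul_pow, mul_inv_cancel₀ hω, one_pow]
  unfold gi tt
  rw [map_add, map_add, ev_monomial, ev_monomial, ev_monomial, add_mul, add_mul, smul_mul_assoc, smul_mul_assoc,
    smul_add, smul_add, smul_smul, smul_smul, inv_inv, h1, pow_zero, pow_one, sq]

theorem Data.tt_mul (D : Data p h x y e1 e2 e3 β ω) (j : ℕ) : tt ω e1 e2 e3 j * tt ω⁻¹ e1 e2 e3 j = 1 := by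
  have hω : ω ≠ 0 := D.om.ne_zero D.prime.ne_zero
  have h1 : ω ^ j * (ω⁻¹) ^ j = 1 := by
    rw [← mul_pow, mul_inv_cancel₀ hω, one_pow]
  have h2 : (ω⁻¹) ^ j * ω ^ j = 1 := by rw [mul_comm, h1]
  unfold tt
  simp only [inv_inv, add_mul, mul_add, smul_mul_assoc, mul_smul_comm, smul_smul, D.e11, D.e22, D.e33, D.e12, D.e13,
    D.e21, D.e23, D.e31, D.e32, smul_zero, add_zero, zero_add, h1, h2, one_smul]
  exact D.sum

/-- `(x t^j) ^ p = 1` -/
theorem Data.pow_p (D : Data p h x y e1 e2 e3 β ω) (j : ℕ) (hj : j < p) : (x * tt ω e1 e2 e3 j) ^ p = 1 := by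
  have h1 := geom_sum_mul (x * (β ^ j • tt ω e1 e2 e3 j)) p
  rw [D.reg j hj, zero_mul] at h1
  have h2 : (x * (β ^ j • tt ω e1 e2 e3 j)) ^ p = 1 := (sub_eq_zero.1 h1.symm)
  rw [mul_smul_comm, _root_.smul_pow, ← pow_mul, mul_comm j p, pow_mul, D.bp, one_pow, one_smul] at h2
  exact h2

/-- `(x t^j) ^ (h+1) = (x t^j) ^ (-h)` -/
theorem Data.pow_h (D : Data p h x y e1 e2 e3 β ω) (j : ℕ) (hj : j < p) :
    (x * tt ω e1 e2 e3 j) ^ (h + 1) = (tt ω⁻¹ e1 e2 e3 j * y) ^ h := by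
  have h1 : (x * tt ω e1 e2 e3 j) * (tt ω⁻¹ e1 e2 e3 j * y) = 1 := by
    calc (x * tt ω e1 e2 e3 j) * (tt ω⁻¹ e1 e2 e3 j * y)
        = x * (tt ω e1 e2 e3 j * tt ω⁻¹ e1 e2 e3 j) * y := by simp only [mul_assoc]
      _ = 1 := by rw [D.tt_mul, mul_one, D.xy]
  have h2 : ∀ n : ℕ, (x * tt ω e1 e2 e3 j) ^ n * (tt ω⁻¹ e1 e2 e3 j * y) ^ n = 1 := by
    intro n
    induction n with
    | zero => simp
    | succ n ih =>
      calc (x * tt ω e1 e2 e3 j) ^ (n + 1) * (tt ω⁻¹ e1 e2 e3 j * y) ^ (n + 1)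
          = (x * tt ω e1 e2 e3 j) ^ n * ((x * tt ω e1 e2 e3 j) * (tt ω⁻¹ e1 e2 e3 j * y)) *
              (tt ω⁻¹ e1 e2 e3 j * y) ^ n := by rw [pow_succ, pow_succ']; simp only [mul_assoc]
        _ = 1 := by rw [h1, mul_one, ih]
  have h3 := D.pow_p j hj
  have h4 : p = (h + 1) + h := by rw [D.p_eq]; ring
  rw [h4, pow_add] at h3
  calc (x * tt ω e1 e2 e3 j) ^ (h + 1)
      = (x * tt ω e1 e2 e3 j) ^ (h + 1) * ((x * tt ω e1 e2 e3 j) ^ h * (tt ω⁻¹ e1 e2 e3 j * y) ^ h) := by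
        rw [h2, mul_one]
    _ = (tt ω⁻¹ e1 e2 e3 j * y) ^ h := by rw [← mul_assoc, h3, one_mul]

theorem Data.PP_zero (D : Data p h x y e1 e2 e3 β ω) (j : ℕ) (hj : j < p) :
    ev (ω ^ j) (PP h x y e1 e2 e3) = 0 := by
  have hω : ω ≠ 0 := D.om.ne_zero D.prime.ne_zero
  unfold PP
  rw [map_sub, map_mul, map_pow, map_pow, ev_gg _ _ _ _ hω, ev_gi _ _ _ _ hω, _root_.smul_pow, _root_.smul_pow, ev_X,
    D.pow_h j hj, ← Algebra.smul_def, smul_smul, ← pow_succ', sub_self]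

theorem PP_deg {p h : ℕ} (hp : p = 2 * h + 1) (x y e1 e2 e3 : R) : (PP h x y e1 e2 e3).natDegree ≤ p + 1 := by
  unfold PP
  refine (Polynomial.natDegree_sub_le_of_le (m := p + 1) (n := p + 1) ?_ ?_).trans (by simp)
  · exact (Polynomial.natDegree_pow_le_of_le (h + 1) (gg_deg x e1 e2 e3)).trans (by omega)
  · refine (Polynomial.natDegree_mul_le_of_le Polynomial.natDegree_X_le
      (Polynomial.natDegree_pow_le_of_le h (gi_deg y e1 e2 e3))).trans (by omega)

theorem PP_coeff_zero (h : ℕ) (x y e1 e2 e3 : R) : (PP h x y e1 e2 e3).coeff 0 = (x * e1) ^ (h + 1) := by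
  unfold PP
  rw [Polynomial.coeff_sub, Polynomial.coeff_X_mul_zero, sub_zero]
  change Polynomial.constantCoeff (gg x e1 e2 e3 ^ (h + 1)) = _
  rw [map_pow]
  congr 1
  change (gg x e1 e2 e3).coeff 0 = _
  unfold gg
  simp [Polynomial.coeff_monomial]

theorem Data.PP_coeff_p (D : Data p h x y e1 e2 e3 β ω) :
    (PP h x y e1 e2 e3).coeff p * e1 = -((e1 * y) ^ h * e1) := by
  unfold PP
  rw [Polynomial.coeff_sub, sub_mul]
  have h1 : (gg x e1 e2 e3 ^ (h + 1)).coeff p * e1 = 0 := by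
    rw [← Polynomial.coeff_mul_C, pow_succ, mul_assoc]
    have h2 : gg x e1 e2 e3 * C e1 = C (x * e1) := by
      unfold gg
      rw [add_mul, add_mul, Polynomial.monomial_mul_C, Polynomial.monomial_mul_C, Polynomial.monomial_mul_C, mul_assoc,
        mul_assoc, mul_assoc, D.e11, D.e21, D.e31, mul_zero, map_zero, map_zero, add_zero, add_zero,
        Polynomial.monomial_zero_left]
    rw [h2, Polynomial.coeff_mul_C, Polynomial.coeff_eq_zero_of_natDegree_lt, zero_mul]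
    have h3 := Polynomial.natDegree_pow_le_of_le h (gg_deg x e1 e2 e3)
    have h4 := D.p_eq
    omega
  have h2 : (X * gi y e1 e2 e3 ^ h).coeff p = (e1 * y) ^ h := by
    have h4 := D.p_eq
    have h5 : p = h * 2 + 1 := by omega
    rw [h5, Polynomial.coeff_X_mul, Polynomial.coeff_pow_of_natDegree_le (gi_deg y e1 e2 e3)]
    congr 1
    unfold gi
    simp [Polynomial.coeff_monomial]
  rw [h1, h2, zero_sub]

/-- a corner is nilpotent -/
theorem Data.corner (D : Data p h x y e1 e2 e3 β ω) : (x * e1) ^ (h + 1) = 0 := by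
  have hp := D.prime
  have F0 := fourier hp.one_lt D.pK D.om (PP h x y e1 e2 e3) (PP_deg D.p_eq x y e1 e2 e3) D.PP_zero 0 hp.pos
  rw [if_pos (by omega), add_zero, PP_coeff_zero] at F0
  set u := (x * e1) ^ (h + 1) with hu
  have hue : u * e1 = u := by
    rw [hu, pow_succ, mul_assoc, mul_assoc x e1 e1, D.e11]
  have h1 : u = (e1 * y) ^ h * e1 := by
    have h2 : (u + (PP h x y e1 e2 e3).coeff p) * e1 = 0 := by rw [F0, zero_mul]
    rw [add_mul, D.PP_coeff_p, hue] at h2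
    exact add_neg_eq_zero.1 h2
  have heu : e1 * u = u := by
    obtain ⟨k, hk⟩ : ∃ k, h = k + 1 := ⟨h - 1, by have := D.h_pos; omega⟩
    rw [h1, hk, pow_succ', ← mul_assoc, ← mul_assoc, ← mul_assoc, D.e11]
  have hen : ∀ n : ℕ, e1 * ((x * e1) ^ n * u) = (x * e1) ^ n * u := by
    intro n
    have h2 : (x * e1) ^ n * u = u * (x * e1) ^ n := by rw [hu, ← pow_add, ← pow_add, add_comm]
    rw [h2, ← mul_assoc, heu]
  have htt : ∀ (j : ℕ) (v : R), e1 * v = v → (β ^ j • tt ω e1 e2 e3 j) * v = ((β * ω⁻¹) ^ j) • v := by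
    intro j v hv
    have h2 : e2 * v = 0 := by rw [← hv, ← mul_assoc, D.e21, zero_mul]
    have h3 : e3 * v = 0 := by rw [← hv, ← mul_assoc, D.e31, zero_mul]
    unfold tt
    rw [smul_mul_assoc, add_mul, add_mul, smul_mul_assoc, smul_mul_assoc, hv, h2, h3, smul_zero, add_zero, add_zero,
      smul_smul, mul_pow]
  have hpow : ∀ (j n : ℕ), (x * (β ^ j • tt ω e1 e2 e3 j)) ^ n * u = (((β * ω⁻¹) ^ n) ^ j) • ((x * e1) ^ n * u) := by
    intro j n
    induction n with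
    | zero => simp
    | succ n ih =>
      have h2 : x * ((x * e1) ^ n * u) = (x * e1) ^ (n + 1) * u := by
        rw [pow_succ', mul_assoc (x * e1), mul_assoc x e1, hen n]
      rw [pow_succ', mul_assoc, ih, mul_smul_comm, mul_assoc, htt j _ (hen n), mul_smul_comm, h2, smul_smul]
      congr 1
      rw [← mul_pow, ← pow_succ]
  by_cases hγ : β * ω⁻¹ = 1
  · have h2 := D.o1 hγ
    rw [← heu, h2, zero_mul]
  · have hγp : (β * ω⁻¹) ^ p = 1 := by
      rw [mul_pow, D.bp, inv_pow, D.om.pow_eq_one, inv_one, mul_one]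
    have h2 : ∑ j ∈ Finset.range p, ∑ n ∈ Finset.range p, (((β * ω⁻¹) ^ n) ^ j) • ((x * e1) ^ n * u) = 0 := by
      refine Finset.sum_eq_zero fun j hj => ?_
      have h3 : (∑ n ∈ Finset.range p, (x * (β ^ j • tt ω e1 e2 e3 j)) ^ n) * u = 0 := by
        rw [D.reg j (Finset.mem_range.1 hj), zero_mul]
      rw [Finset.sum_mul] at h3
      rw [← h3]
      exact Finset.sum_congr rfl fun n _ => (hpow j n).symm
    rw [Finset.sum_comm] at h2
    rw [Finset.sum_eq_single 0] at h2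
    · simp only [pow_zero, one_pow, one_smul, one_mul, Finset.sum_const, Finset.card_range] at h2
      have h3 : (p : K) • u = 0 := by rwa [Nat.cast_smul_eq_nsmul]
      exact (smul_eq_zero.1 h3).resolve_left D.pK
    · intro n hn hn0
      rw [← Finset.sum_smul]
      have h3 : (β * ω⁻¹) ^ n ≠ 1 := by
        have h4 : IsPrimitiveRoot (β * ω⁻¹) p := by
          have : Fact p.Prime := ⟨hp⟩
          exact (IsPrimitiveRoot.iff_orderOf).2 (orderOf_eq_prime hγp hγ)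
        exact h4.pow_ne_one_of_pos_of_lt hn0 (Finset.mem_range.1 hn)
      have h4 := geom_sum_mul ((β * ω⁻¹) ^ n) p
      rw [← pow_mul, mul_comm n p, pow_mul, hγp, one_pow, sub_self] at h4
      rw [(mul_eq_zero.1 h4).resolve_right (sub_ne_zero.2 h3), zero_smul]
    · intro h3
      exact absurd (Finset.mem_range.2 hp.pos) h3

end Pool.Agent.GeoProg
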