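import Pool.Agent.Lib_MP_e73b0e_gp.Spec

/-! From the action to the algebra. -/

set_option autoImplicit false

open Polynomial

open scoped TensorProduct

namespace Pool.Agent.GeoProg

theorem geom_zero {V A : Type} [AddCommGroup V] [Group A] [DistribMulAction A V] {p : ℕ} (a : A) (ha : a ^ p = 1)
    (hf : ∀ v : V, a • v = v → v = 0) (v : V) : ∑ i ∈ Finset.range p, a ^ i • v = 0 := by
  apply hf
  have h1 : a • ∑ i ∈ Finset.range p, a ^ i • v = ∑ i ∈ Finset.range p, a ^ (i + 1) • v := by
    rw [Finset.smul_sum]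
    refine Finset.sum_congr rfl fun i _ => ?_
    rw [smul_smul, ← pow_succ']
  have h2 : ∑ i ∈ Finset.range p, a ^ (i + 1) • v + a ^ 0 • v
      = ∑ i ∈ Finset.range p, a ^ i • v + a ^ p • v := by
    rw [← Finset.sum_range_succ' (fun i => a ^ i • v) p, Finset.sum_range_succ]
  rw [ha, pow_zero] at h2
  rw [h1]
  exact add_right_cancel h2

/-- `p + 1` automorphisms of order `p` without fixed points -/
theorem local_zero_aux {K V A : Type} [Field K] [AddCommGroup V] [Module K V] [Group A] [DistribMulAction A V]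
    [SMulCommClass A K V] (L : Type) [Field L] [IsAlgClosed L] [Algebra K L] {p : ℕ} (hp : p.Prime) (hp2 : p ≠ 2) (c x : A) (hcp : c ^ p = 1)
    (hcf : ∀ v : V, c • v = v → v = 0)
    (hx : ∀ j < p, (x * c ^ j) ^ p = 1 ∧ ∀ v : V, (x * c ^ j) • v = v → v = 0)
    (f : K[X]) (α β γ : L) (hf : aeval (DistribMulAction.toModuleEnd K V c) f = 0)
    (hdvd : f.map (algebraMap K L) ∣ (X - C α) * (X - C β) * (X - C γ)) (hg : α * γ = β ^ 2) :
    ∀ v : V, v = 0 := by
  rcases subsingleton_or_nontrivial V with hV | hV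
  · exact fun v => Subsingleton.elim v 0
  let φ : A →* Module.End K V := DistribMulAction.toModuleEnd K V
  have hφ : ∀ (a : A) (v : V), φ a v = a • v := fun _ _ => rfl
  have hgeo : ∀ a : A, a ^ p = 1 → (∀ v : V, a • v = v → v = 0) → ∑ i ∈ Finset.range p, φ a ^ i = 0 := by
    intro a ha hfa
    ext v
    rw [LinearMap.sum_apply, LinearMap.zero_apply, ← geom_zero a ha hfa v]
    refine Finset.sum_congr rfl fun i _ => ?_
    rw [← map_pow, hφ]
  have hpK : (p : K) ≠ 0 := by
    intro h0
    have h1 : ringChar K = p := CharP.ringChar_of_prime_eq_zero hp h0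
    have h2 : CharP K p := h1 ▸ ringChar.charP K
    have h3 : CharP (Module.End K V) p := charP_of_injective_algebraMap (algebraMap K (Module.End K V)).injective p
    have h4 : Fact p.Prime := ⟨hp⟩
    have h5 : (φ c - 1) ^ p = 0 := by
      rw [sub_pow_char_of_commute p (Commute.one_right (φ c)), ← map_pow, hcp, map_one, one_pow, sub_self]
    have h6 : ∀ n : ℕ, ∀ v : V, ((φ c - 1) ^ n) v = 0 → v = 0 := by
      intro n
      induction n with
      | zero => intro v hv; simpa using hv
      | succ n ih =>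
        intro v hv
        rw [pow_succ] at hv
        have h7 := ih ((φ c - 1) v) hv
        apply hcf
        have h8 : φ c v - v = 0 := by
          rw [← h7]
          rfl
        exact sub_eq_zero.1 h8
    obtain ⟨v, hv⟩ := exists_ne (0 : V)
    exact hv (h6 p v (by rw [h5]; rfl))
  have hpL : ((p : ℕ) : L) ≠ 0 := by
    intro h0
    apply hpK
    apply (algebraMap K L).injective
    rw [map_natCast, map_zero, h0]
  have : NeZero ((p : ℕ) : L) := ⟨hpL⟩
  obtain ⟨ζ, hζ⟩ := HasEnoughRootsOfUnity.exists_primitiveRoot L p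
  have hζg : Good p ζ := ⟨hζ.pow_eq_one, hζ.ne_one hp.one_lt⟩
  let ι : Module.End K V →ₐ[K] L ⊗[K] Module.End K V := Algebra.TensorProduct.includeRight
  have hι : Function.Injective ι := Algebra.TensorProduct.includeRight_injective (algebraMap K L).injective
  have hgeo' : ∀ a : A, a ^ p = 1 → (∀ v : V, a • v = v → v = 0) → ∑ i ∈ Finset.range p, ι (φ a) ^ i = 0 := by
    intro a ha hfa
    have h1 := congrArg ι (hgeo a ha hfa)
    rw [map_sum, map_zero] at h1
    rw [← h1]
    exact Finset.sum_congr rfl fun i _ => (map_pow ι (φ a) i).symm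
  have key : dd (ι (φ c)) α * dd (ι (φ c)) β * dd (ι (φ c)) γ = 0 := by
    have h0 : aeval (ι (φ c)) (f.map (algebraMap K L)) = 0 := by
      rw [aeval_map_algebraMap, aeval_algHom_apply]
      have : aeval (φ c) f = 0 := hf
      rw [this, map_zero]
    obtain ⟨g, hgq⟩ := hdvd
    have h1 : ∀ l : L, aeval (ι (φ c)) (X - C l) = dd (ι (φ c)) l := by
      intro l
      rw [map_sub, aeval_X, aeval_C]
      rfl
    have h2 : aeval (ι (φ c)) ((X - C α) * (X - C β) * (X - C γ)) = 0 := by
      rw [hgq, map_mul, h0, zero_mul]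
    rw [map_mul, map_mul, h1, h1, h1] at h2
    exact h2
  have hone : (1 : L ⊗[K] Module.End K V) = 0 := by
    refine algebra_zero hp hp2 hpL hζg (ι (φ c)) (ι (φ x)) (ι (φ x⁻¹)) ?_ ?_ ?_ (hgeo' c hcp hcf) ?_ α β γ hg key
    · rw [← map_mul, ← map_mul, mul_inv_cancel, map_one, map_one]
    · rw [← map_mul, ← map_mul, inv_mul_cancel, map_one, map_one]
    · rw [← map_pow, ← map_pow, hcp, map_one, map_one]
    · intro j hj
      have h1 := hgeo' (x * c ^ j) (hx j hj).1 (hx j hj).2
      rw [map_mul, map_mul, map_pow, map_pow] at h1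
      exact h1
  have h1 : (1 : Module.End K V) = 0 := by
    apply hι
    rw [map_one, map_zero, hone]
  intro v
  have h2 := congrArg (fun g : Module.End K V => g v) h1
  exact h2

/-- `p + 1` automorphisms of order `p` without fixed points -/
theorem local_zero {K V A : Type} [Field K] [AddCommGroup V] [Module K V] [Group A] [DistribMulAction A V]
    [SMulCommClass A K V] (L : Type) [Field L] [Algebra K L] {p : ℕ} (hp : p.Prime) (hp2 : p ≠ 2) (c x : A)
    (hcp : c ^ p = 1) (hcf : ∀ v : V, c • v = v → v = 0)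
    (hx : ∀ j < p, (x * c ^ j) ^ p = 1 ∧ ∀ v : V, (x * c ^ j) • v = v → v = 0)
    (f : K[X]) (α β γ : L) (hf : aeval (DistribMulAction.toModuleEnd K V c) f = 0)
    (hdvd : f.map (algebraMap K L) ∣ (X - C α) * (X - C β) * (X - C γ)) (hg : α * γ = β ^ 2) :
    ∀ v : V, v = 0 := by
  refine local_zero_aux (AlgebraicClosure L) hp hp2 c x hcp hcf hx f (algebraMap L (AlgebraicClosure L) α)
    (algebraMap L (AlgebraicClosure L) β) (algebraMap L (AlgebraicClosure L) γ) hf ?_ ?_
  · have h1 := Polynomial.map_dvd (algebraMap L (AlgebraicClosure L)) hdvd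
    rw [Polynomial.map_map, ← IsScalarTower.algebraMap_eq] at h1
    simpa only [Polynomial.map_mul, Polynomial.map_sub, Polynomial.map_X, Polynomial.map_C] using h1
  · rw [← map_mul, hg, map_pow]

theorem cyclic {K V A : Type} [Field K] [AddCommGroup V] [Module K V] [Group A] [DistribMulAction A V]
    [FaithfulSMul A V] [SMulCommClass A K V] (L : Type) [Field L] [Algebra K L] {p : ℕ} (hp : p.Prime) (hp2 : p ≠ 2)
    (c : A) (hc1 : c ≠ 1)
    (hcp : c ^ p = 1) (hcf : ∀ v : V, c • v = v → v = 0) (S : Set A) (hS : Subgroup.closure (insert c S) = ⊤)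
    (hx : ∀ x ∈ S, ∀ j < p, x * c ^ j ≠ 1 →
      (x * c ^ j) ^ p = 1 ∧ ∀ v : V, (x * c ^ j) • v = v → v = 0)
    (f : K[X]) (α β γ : L) (hf : aeval (DistribMulAction.toModuleEnd K V c) f = 0)
    (hdvd : f.map (algebraMap K L) ∣ (X - C α) * (X - C β) * (X - C γ)) (hg : α * γ = β ^ 2) :
    IsCyclic A := by
  have hle : (⊤ : Subgroup A) ≤ Subgroup.zpowers c := by
    rw [← hS, Subgroup.closure_le]
    intro x hxS
    rcases hxS with rfl | hxS
    · exact Subgroup.mem_zpowers x
    · by_contra hne
      apply hc1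
      apply FaithfulSMul.eq_of_smul_eq_smul (α := V)
      intro v
      have h0 := local_zero L hp hp2 c x hcp hcf (fun j hj => hx x hxS j hj (by
        intro h1
        apply hne
        have h2 : x = (c ^ j)⁻¹ := eq_inv_of_mul_eq_one_left h1
        rw [h2]
        exact (Subgroup.zpowers c).inv_mem ((Subgroup.zpowers c).pow_mem (Subgroup.mem_zpowers c) j)))
        f α β γ hf hdvd hg
      rw [h0 v, smul_zero, smul_zero]
  exact ⟨⟨c, fun x => hle (Subgroup.mem_top x)⟩⟩

end Pool.Agent.GeoProg
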