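import Mathlib

/-! Evaluation at central points, and families of idempotents. -/

set_option autoImplicit false

open Polynomial

namespace Pool.Agent.GeoProg

variable {K R : Type} [Field K] [Ring R] [Algebra K R]

/-- evaluation at a scalar -/
noncomputable def ev (w : K) : R[X] →+* R :=
  eval₂RingHom' (RingHom.id R) (algebraMap K R w) (fun a => (Algebra.commutes w a).symm)

theorem ev_C (w : K) (a : R) : ev w (C a) = a := by
  simp [ev]

theorem ev_X (w : K) : ev w (X : R[X]) = algebraMap K R w := by
  simp [ev]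

theorem ev_eq_sum (w : K) (P : R[X]) (n : ℕ) (hn : P.natDegree < n) :
    ev w P = ∑ i ∈ Finset.range n, w ^ i • P.coeff i := by
  have h : ev w P = P.eval (algebraMap K R w) := rfl
  rw [h, Polynomial.eval_eq_sum_range' hn]
  refine Finset.sum_congr rfl fun i _ => ?_
  rw [← map_pow, ← Algebra.commutes, Algebra.smul_def]

/-- translation of the variable by a scalar -/
noncomputable def sh (w : K) : R[X] →+* R[X] :=
  eval₂RingHom' C (X + C (algebraMap K R w)) (fun a =>
    ((Polynomial.commute_X (C a)).symm).add_right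
      ((show Commute a (algebraMap K R w) from (Algebra.commutes w a).symm).map C))

theorem sh_C (w : K) (a : R) : sh w (C a) = C a := by
  simp [sh]

theorem sh_X (w : K) : sh w (X : R[X]) = X + C (algebraMap K R w) := by
  simp [sh]

theorem sh_sh (w : K) (P : R[X]) : sh (-w) (sh w P) = P := by
  have h : (sh (-w)).comp (sh w) = RingHom.id R[X] := by
    refine Polynomial.ringHom_ext (fun a => ?_) ?_
    · rw [RingHom.comp_apply, sh_C, sh_C]
      rfl
    · rw [RingHom.comp_apply, sh_X, map_add, sh_X, sh_C, map_neg, map_neg, RingHom.id_apply]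
      exact neg_add_cancel_right _ _
  exact congrArg (fun f : R[X] →+* R[X] => f P) h

theorem sh_coeff_zero (w : K) (P : R[X]) : (sh w P).coeff 0 = ev w P := by
  have h : (Polynomial.constantCoeff).comp (sh w) = (ev w : R[X] →+* R) := by
    refine Polynomial.ringHom_ext (fun a => ?_) ?_
    · rw [RingHom.comp_apply, sh_C, ev_C]
      exact Polynomial.coeff_C_zero
    · rw [RingHom.comp_apply, sh_X, ev_X]
      change (X + C (algebraMap K R w)).coeff 0 = _
      rw [Polynomial.coeff_add, Polynomial.coeff_X_zero, Polynomial.coeff_C_zero, zero_add]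
  exact congrArg (fun f : R[X] →+* R => f P) h

/-- A polynomial with `F ^ 2 = p X ^ (p-1) F` (that is, `F / (p X ^ (p-1))` is idempotent) which vanishes at a nonzero
scalar is zero: look at the lowest coefficient of `F (X + w)`. -/
theorem idem_zero {p : ℕ} (hp : (p : K) ≠ 0) (w : K) (hw : w ≠ 0) (F : R[X])
    (hF : F * F = C ((p : ℕ) : R) * X ^ (p - 1) * F) (h0 : ev w F = 0) : F = 0 := by
  have key : sh w F = 0 := by
    by_contra hne
    have h1 : (sh w F).trailingCoeff ≠ 0 := Polynomial.trailingCoeff_nonzero_iff_nonzero.2 hne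
    have hk : 0 < (sh w F).natTrailingDegree := by
      rw [Nat.pos_iff_ne_zero]
      intro h
      apply h1
      rw [Polynomial.trailingCoeff, h, sh_coeff_zero, h0]
    have h2 := congrArg (fun P : R[X] => (sh w P).coeff (sh w F).natTrailingDegree) hF
    simp only [map_mul, map_pow, sh_C, sh_X] at h2
    set G := sh w F with hG
    set k := G.natTrailingDegree with hkk
    have h3 : (G * G).coeff k = 0 := by
      rw [Polynomial.coeff_mul]
      refine Finset.sum_eq_zero fun ij hij => ?_
      rw [Finset.HasAntidiagonal.mem_antidiagonal] at hij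
      rcases Nat.lt_or_ge ij.1 k with h | h
      · rw [Polynomial.coeff_eq_zero_of_lt_natTrailingDegree h, zero_mul]
      · have h4 : ij.2 < k := by omega
        rw [Polynomial.coeff_eq_zero_of_lt_natTrailingDegree h4, mul_zero]
    have h4 : (C ((p : ℕ) : R) * (X + C (algebraMap K R w)) ^ (p - 1) * G).coeff k =
        ((p : K) * w ^ (p - 1)) • G.coeff k := by
      rw [Polynomial.coeff_mul, Finset.sum_eq_single (0, k)]
      · have h5 : (C ((p : ℕ) : R) * (X + C (algebraMap K R w)) ^ (p - 1)).coeff 0 =
            algebraMap K R ((p : K) * w ^ (p - 1)) := by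
          have h6 : (C ((p : ℕ) : R) * (X + C (algebraMap K R w)) ^ (p - 1)).coeff 0 =
              Polynomial.constantCoeff (C ((p : ℕ) : R) * (X + C (algebraMap K R w)) ^ (p - 1)) := rfl
          rw [h6, map_mul, map_pow, map_add]
          simp
        rw [h5, Algebra.smul_def]
      · intro ij hij hne2
        rw [Finset.HasAntidiagonal.mem_antidiagonal] at hij
        have h4 : ij.2 < k := by
          rcases Nat.lt_or_ge ij.2 k with h | h
          · exact h
          · exfalso
            apply hne2
            ext <;> simp <;> omega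
        rw [Polynomial.coeff_eq_zero_of_lt_natTrailingDegree h4, mul_zero]
      · intro h
        exact absurd (Finset.HasAntidiagonal.mem_antidiagonal.2 (by simp)) h
    rw [h3, h4] at h2
    have h5 : (p : K) * w ^ (p - 1) ≠ 0 := mul_ne_zero hp (pow_ne_zero _ hw)
    exact h1 ((smul_eq_zero.1 h2.symm).resolve_left h5)
  rw [← sh_sh w F, key, map_zero]

/-- Fourier inversion: a polynomial of degree at most `p + 1` which vanishes at all powers of a primitive `p`-th root of
unity. -/
theorem fourier {p : ℕ} (hp1 : 1 < p) (hp : (p : K) ≠ 0) {ω : K} (hω : IsPrimitiveRoot ω p) (P : R[X])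
    (hP : P.natDegree ≤ p + 1) (h : ∀ j < p, ev (ω ^ j) P = 0) (k : ℕ) (hk : k < p) :
    P.coeff k + (if k ≤ 1 then P.coeff (p + k) else 0) = 0 := by
  have hω0 : ω ≠ 0 := hω.ne_zero (by omega)
  have hgeo : ∀ i : ℕ, ∑ j ∈ Finset.range p, ((ω⁻¹ ^ k * ω ^ i) ^ j) = if (p : ℤ) ∣ ((i : ℤ) - k) then (p : K) else 0 := by
    intro i
    have e1 : ω⁻¹ ^ k * ω ^ i = ω ^ ((i : ℤ) - k) := by
      rw [zpow_sub₀ hω0, zpow_natCast, zpow_natCast, inv_pow]
      field_simp
    split_ifs with hd
    · have e2 : ω ^ ((i : ℤ) - k) = 1 := by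
        rw [hω.zpow_eq_one_iff_dvd]
        exact hd
      rw [e1, e2]
      simp
    · have e2 : ω ^ ((i : ℤ) - k) ≠ 1 := by
        intro h1
        exact hd ((hω.zpow_eq_one_iff_dvd _).1 h1)
      have e3 := geom_sum_mul (ω ^ ((i : ℤ) - k)) p
      have e4 : (ω ^ ((i : ℤ) - k)) ^ p = 1 := by
        rw [← zpow_natCast, ← zpow_mul, mul_comm, zpow_mul, zpow_natCast, hω.pow_eq_one, one_zpow]
      rw [e4, sub_self] at e3
      rw [e1]
      exact (mul_eq_zero.1 e3).resolve_right (sub_ne_zero.2 e2)
  have h1 : ∑ j ∈ Finset.range p, ((ω⁻¹ ^ k) ^ j) • ev (ω ^ j) P = 0 :=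
    Finset.sum_eq_zero fun j hj => by rw [h j (Finset.mem_range.1 hj), smul_zero]
  have h2 : ∑ j ∈ Finset.range p, ((ω⁻¹ ^ k) ^ j) • ev (ω ^ j) P =
      ∑ i ∈ Finset.range (p + 2), (∑ j ∈ Finset.range p, ((ω⁻¹ ^ k * ω ^ i) ^ j)) • P.coeff i := by
    simp only [Finset.sum_smul]
    rw [Finset.sum_comm]
    refine Finset.sum_congr rfl fun j _ => ?_
    rw [ev_eq_sum (ω ^ j) P (p + 2) (by omega), Finset.smul_sum]
    refine Finset.sum_congr rfl fun i _ => ?_
    rw [smul_smul, mul_pow, ← pow_mul ω j i, ← pow_mul ω i j, mul_comm j i]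
  rw [h1] at h2
  have h3 : ∑ i ∈ Finset.range (p + 2), (∑ j ∈ Finset.range p, ((ω⁻¹ ^ k * ω ^ i) ^ j)) • P.coeff i =
      (p : K) • (P.coeff k + (if k ≤ 1 then P.coeff (p + k) else 0)) := by
    have h4 : ∀ i ∈ Finset.range (p + 2), (∑ j ∈ Finset.range p, ((ω⁻¹ ^ k * ω ^ i) ^ j)) • P.coeff i =
        (if i = k then (p : K) • P.coeff k else 0) + (if i = p + k then (p : K) • P.coeff (p + k) else 0) := by
      intro i hi
      have hi' := Finset.mem_range.1 hi
      rw [hgeo i]
      by_cases hik : i = k
      · subst hik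
        rw [if_pos (by simp), if_pos rfl, if_neg (by omega), add_zero]
      · by_cases hipk : i = p + k
        · subst hipk
          rw [if_pos (by push_cast; simp), if_neg hik, if_pos rfl, zero_add]
        · rw [if_neg hik, if_neg hipk, if_neg, zero_smul, add_zero]
          rintro ⟨q, hq⟩
          have hpz : (0 : ℤ) < p := by exact_mod_cast (by omega : 0 < p)
          have hq1 : -1 < q := by
            by_contra hc
            have : (p : ℤ) * q ≤ p * (-1) := mul_le_mul_of_nonneg_left (by omega) hpz.le
            omega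
          have hq2 : q < 2 := by
            by_contra hc
            have : (p : ℤ) * 2 ≤ p * q := mul_le_mul_of_nonneg_left (by omega) hpz.le
            omega
          have hq3 : q = 0 ∨ q = 1 := by omega
          rcases hq3 with rfl | rfl
          · apply hik
            omega
          · apply hipk
            omega
    rw [Finset.sum_congr rfl h4, Finset.sum_add_distrib, Finset.sum_ite_eq', Finset.sum_ite_eq',
      if_pos (Finset.mem_range.2 (by omega)), smul_add]
    congr 1
    by_cases hk1 : k ≤ 1
    · rw [if_pos hk1, if_pos (Finset.mem_range.2 (by omega))]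
    · rw [if_neg hk1, if_neg (by rw [Finset.mem_range]; omega), smul_zero]
  rw [h3] at h2
  exact (smul_eq_zero.1 h2.symm).resolve_left hp

end Pool.Agent.GeoProg
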