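import Pool.Agent.Lib_MP_e73b0e_gp.Core

/-! The core, end: the algebra is zero. -/

set_option autoImplicit false

open Polynomial

namespace Pool.Agent.GeoProg

variable {K R : Type} [Field K] [Ring R] [Algebra K R] {p h : ℕ} {x y e1 e2 e3 : R} {β ω : K}

theorem gg_coeff_two (x e1 e2 e3 : R) : (gg x e1 e2 e3).coeff 2 = x * e3 := by
  unfold gg
  simp [Polynomial.coeff_monomial]

/-- the difference is zero -/
theorem Data.PP_eq_zero (D : Data p h x y e1 e2 e3 β ω) : PP h x y e1 e2 e3 = 0 := by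
  have hp := D.prime
  have hpe := D.p_eq
  have hh := D.h_pos
  have F := fourier hp.one_lt D.pK D.om (PP h x y e1 e2 e3) (PP_deg D.p_eq x y e1 e2 e3) D.PP_zero
  have c0 : (PP h x y e1 e2 e3).coeff 0 = 0 := by
    rw [PP_coeff_zero]
    exact D.corner
  have c2 : (PP h x y e1 e2 e3).coeff (p + 1) = 0 := by
    unfold PP
    rw [Polynomial.coeff_sub]
    have h1 : p + 1 = (h + 1) * 2 := by omega
    have h2 : (gg x e1 e2 e3 ^ (h + 1)).coeff (p + 1) = 0 := by
      rw [h1, Polynomial.coeff_pow_of_natDegree_le (gg_deg x e1 e2 e3), gg_coeff_two]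
      exact D.swap.corner
    have h3 : (X * gi y e1 e2 e3 ^ h).coeff (p + 1) = 0 := by
      apply Polynomial.coeff_eq_zero_of_natDegree_lt
      have h4 := Polynomial.natDegree_mul_le_of_le (Polynomial.natDegree_X_le (R := R))
        (Polynomial.natDegree_pow_le_of_le h (gi_deg y e1 e2 e3))
      omega
    rw [h2, h3, sub_zero]
  have cp : (PP h x y e1 e2 e3).coeff p = 0 := by
    have h1 := F 0 hp.pos
    rw [if_pos (by omega), c0, zero_add, add_zero] at h1
    exact h1
  have c1 : (PP h x y e1 e2 e3).coeff 1 = 0 := by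
    have h1 := F 1 hp.one_lt
    rw [if_pos le_rfl, c2, add_zero] at h1
    exact h1
  ext k
  rw [Polynomial.coeff_zero]
  rcases Nat.lt_or_ge k 2 with hk | hk
  · have : k = 0 ∨ k = 1 := by omega
    rcases this with rfl | rfl
    · exact c0
    · exact c1
  · rcases Nat.lt_or_ge k p with hkp | hkp
    · have h1 := F k hkp
      rw [if_neg (by omega), add_zero] at h1
      exact h1
    · rcases Nat.lt_or_ge k (p + 2) with hk2 | hk2
      · have : k = p ∨ k = p + 1 := by omega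
        rcases this with rfl | rfl
        · exact cp
        · exact c2
      · apply Polynomial.coeff_eq_zero_of_natDegree_lt
        have h1 := PP_deg D.p_eq x y e1 e2 e3
        omega

theorem Data.gi_gg (D : Data p h x y e1 e2 e3 β ω) : gi y e1 e2 e3 * gg x e1 e2 e3 = X ^ 2 := by
  have h1 : ∀ a b : R, a * y * (x * b) = a * b := by
    intro a b
    rw [mul_assoc, ← mul_assoc y x b, D.yx, one_mul]
  unfold gi gg
  simp only [add_mul, mul_add, Polynomial.monomial_mul_monomial, h1, D.e11, D.e12, D.e13, D.e21, D.e22, D.e23, D.e31,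
    D.e32, D.e33, map_zero, add_zero, zero_add]
  norm_num
  rw [← map_add, ← map_add, D.sum, Polynomial.monomial_one_right_eq_X_pow]

/-- `g ^ p = X ^ p` identically -/
theorem Data.gg_pow (D : Data p h x y e1 e2 e3 β ω) : gg x e1 e2 e3 ^ p = X ^ p := by
  have h1 := D.PP_eq_zero
  unfold PP at h1
  have h2 : gg x e1 e2 e3 ^ (h + 1) = X * gi y e1 e2 e3 ^ h := sub_eq_zero.1 h1
  have h3 : ∀ n : ℕ, gi y e1 e2 e3 ^ n * gg x e1 e2 e3 ^ n = X ^ (2 * n) := by
    intro n
    induction n with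
    | zero => simp
    | succ n ih =>
      calc gi y e1 e2 e3 ^ (n + 1) * gg x e1 e2 e3 ^ (n + 1)
          = gi y e1 e2 e3 ^ n * (gi y e1 e2 e3 * gg x e1 e2 e3) * gg x e1 e2 e3 ^ n := by
            rw [pow_succ, pow_succ']
            simp only [mul_assoc]
        _ = gi y e1 e2 e3 ^ n * X ^ 2 * gg x e1 e2 e3 ^ n := by rw [D.gi_gg]
        _ = X ^ 2 * (gi y e1 e2 e3 ^ n * gg x e1 e2 e3 ^ n) := by
            rw [← ((Polynomial.commute_X (gi y e1 e2 e3 ^ n)).pow_left 2).eq, mul_assoc]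
        _ = X ^ (2 * (n + 1)) := by rw [ih, ← pow_add]; congr 1; ring
  have h4 : p = (h + 1) + h := by rw [D.p_eq]; ring
  calc gg x e1 e2 e3 ^ p = gg x e1 e2 e3 ^ (h + 1) * gg x e1 e2 e3 ^ h := by rw [← pow_add, ← h4]
    _ = X * (gi y e1 e2 e3 ^ h * gg x e1 e2 e3 ^ h) := by rw [h2, mul_assoc]
    _ = X ^ p := by
      rw [h3, ← pow_succ']
      congr 1
      rw [D.p_eq]

/-- the families of idempotents (times `p X ^ (p-1)`) -/
noncomputable def FF (p : ℕ) (x e1 e2 e3 : R) (β : K) (j : ℕ) : R[X] :=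
  ∑ i ∈ Finset.range p, C (algebraMap K R ((β ^ i) ^ j)) * (X ^ (p - 1 - i) * gg x e1 e2 e3 ^ i)

theorem commute_C_alg (a : K) (P : R[X]) : Commute (C (algebraMap K R a)) P := by
  induction P using Polynomial.induction_on' with
  | add P Q hP hQ => exact hP.add_right hQ
  | monomial n r =>
    rw [← Polynomial.C_mul_X_pow_eq_monomial]
    refine Commute.mul_right ?_ ?_
    · exact ((show Commute (algebraMap K R a) r from Algebra.commutes a r)).map C
    · exact ((Polynomial.commute_X (C (algebraMap K R a))).symm).pow_right n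

/-- `β^j g F_j = X F_j` -/
theorem Data.gg_FF (D : Data p h x y e1 e2 e3 β ω) (j : ℕ) :
    C (algebraMap K R (β ^ j)) * gg x e1 e2 e3 * FF p x e1 e2 e3 β j = X * FF p x e1 e2 e3 β j := by
  have hp := D.prime
  obtain ⟨q, hq⟩ : ∃ q, p = q + 1 := ⟨p - 1, by have := hp.pos; omega⟩
  have hgp := D.gg_pow
  have hβp : (β ^ p) ^ j = 1 := by rw [D.bp, one_pow]
  rw [hq] at hgp hβp
  unfold FF
  rw [hq, Finset.mul_sum, Finset.mul_sum]
  have h1 : ∀ i ∈ Finset.range (q + 1), C (algebraMap K R (β ^ j)) * gg x e1 e2 e3 *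
      (C (algebraMap K R ((β ^ i) ^ j)) * (X ^ (q + 1 - 1 - i) * gg x e1 e2 e3 ^ i)) =
      C (algebraMap K R ((β ^ (i + 1)) ^ j)) * (X ^ (q - i) * gg x e1 e2 e3 ^ (i + 1)) := by
    intro i _
    have e1' : (β ^ (i + 1)) ^ j = β ^ j * (β ^ i) ^ j := by rw [← mul_pow, ← pow_succ']
    rw [e1', map_mul, map_mul, Nat.add_sub_cancel]
    calc C (algebraMap K R (β ^ j)) * gg x e1 e2 e3 *
          (C (algebraMap K R ((β ^ i) ^ j)) * (X ^ (q - i) * gg x e1 e2 e3 ^ i))
        = C (algebraMap K R (β ^ j)) * (gg x e1 e2 e3 * C (algebraMap K R ((β ^ i) ^ j))) *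
            (X ^ (q - i) * gg x e1 e2 e3 ^ i) := by simp only [mul_assoc]
      _ = C (algebraMap K R (β ^ j)) * (C (algebraMap K R ((β ^ i) ^ j)) * gg x e1 e2 e3) *
            (X ^ (q - i) * gg x e1 e2 e3 ^ i) := by rw [(commute_C_alg ((β ^ i) ^ j) (gg x e1 e2 e3)).eq]
      _ = C (algebraMap K R (β ^ j)) * C (algebraMap K R ((β ^ i) ^ j)) *
            ((gg x e1 e2 e3 * X ^ (q - i)) * gg x e1 e2 e3 ^ i) := by simp only [mul_assoc]
      _ = _ := by
        rw [← ((Polynomial.commute_X (gg x e1 e2 e3)).pow_left (q - i)).eq, mul_assoc (X ^ (q - i)), ← pow_succ']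
  rw [Finset.sum_congr rfl h1]
  have h2 : ∀ i ∈ Finset.range (q + 1), X * (C (algebraMap K R ((β ^ i) ^ j)) * (X ^ (q + 1 - 1 - i) *
      gg x e1 e2 e3 ^ i)) = C (algebraMap K R ((β ^ i) ^ j)) * (X ^ (q + 1 - i) * gg x e1 e2 e3 ^ i) := by
    intro i hi
    have hi' := Finset.mem_range.1 hi
    rw [← mul_assoc, (Polynomial.commute_X (C (algebraMap K R ((β ^ i) ^ j)))).eq, mul_assoc, ← mul_assoc X,
      ← pow_succ']
    congr 3
    omega
  rw [Finset.sum_congr rfl h2]
  rw [Finset.sum_range_succ, Finset.sum_range_succ' (fun i => C (algebraMap K R ((β ^ i) ^ j)) * (X ^ (q + 1 - i) *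
    gg x e1 e2 e3 ^ i))]
  congr 1
  · refine Finset.sum_congr rfl fun i hi => ?_
    rw [Nat.add_sub_add_right]
  · rw [hgp, hβp]
    simp

theorem Data.FF_sq (D : Data p h x y e1 e2 e3 β ω) (j : ℕ) :
    FF p x e1 e2 e3 β j * FF p x e1 e2 e3 β j = C ((p : ℕ) : R) * X ^ (p - 1) * FF p x e1 e2 e3 β j := by
  have h1 : ∀ i : ℕ, (C (algebraMap K R ((β ^ i) ^ j)) * gg x e1 e2 e3 ^ i) * FF p x e1 e2 e3 β j =
      X ^ i * FF p x e1 e2 e3 β j := by
    intro i
    induction i with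
    | zero => simp
    | succ i ih =>
      have e1' : (β ^ (i + 1)) ^ j = (β ^ i) ^ j * β ^ j := by rw [← mul_pow, ← pow_succ]
      calc (C (algebraMap K R ((β ^ (i + 1)) ^ j)) * gg x e1 e2 e3 ^ (i + 1)) * FF p x e1 e2 e3 β j
          = C (algebraMap K R ((β ^ i) ^ j)) * (C (algebraMap K R (β ^ j)) * gg x e1 e2 e3 ^ i) *
              gg x e1 e2 e3 * FF p x e1 e2 e3 β j := by
            rw [e1', map_mul, map_mul, pow_succ]
            simp only [mul_assoc]
        _ = C (algebraMap K R ((β ^ i) ^ j)) * (gg x e1 e2 e3 ^ i * C (algebraMap K R (β ^ j))) *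
              gg x e1 e2 e3 * FF p x e1 e2 e3 β j := by
            rw [(commute_C_alg (β ^ j) (gg x e1 e2 e3 ^ i)).eq]
        _ = (C (algebraMap K R ((β ^ i) ^ j)) * gg x e1 e2 e3 ^ i) *
              (C (algebraMap K R (β ^ j)) * gg x e1 e2 e3 * FF p x e1 e2 e3 β j) := by simp only [mul_assoc]
        _ = ((C (algebraMap K R ((β ^ i) ^ j)) * gg x e1 e2 e3 ^ i) * X) * FF p x e1 e2 e3 β j := by
            rw [D.gg_FF]
            simp only [mul_assoc]
        _ = (X * (C (algebraMap K R ((β ^ i) ^ j)) * gg x e1 e2 e3 ^ i)) * FF p x e1 e2 e3 β j := by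
            rw [(Polynomial.commute_X (C (algebraMap K R ((β ^ i) ^ j)) * gg x e1 e2 e3 ^ i)).eq]
        _ = X ^ (i + 1) * FF p x e1 e2 e3 β j := by rw [mul_assoc, ih, ← mul_assoc, ← pow_succ']
  nth_rewrite 1 [FF]
  rw [Finset.sum_mul]
  have h2 : ∀ i ∈ Finset.range p, C (algebraMap K R ((β ^ i) ^ j)) * (X ^ (p - 1 - i) * gg x e1 e2 e3 ^ i) *
      FF p x e1 e2 e3 β j = X ^ (p - 1) * FF p x e1 e2 e3 β j := by
    intro i hi
    have hi' := Finset.mem_range.1 hi
    calc C (algebraMap K R ((β ^ i) ^ j)) * (X ^ (p - 1 - i) * gg x e1 e2 e3 ^ i) * FF p x e1 e2 e3 β j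
        = (C (algebraMap K R ((β ^ i) ^ j)) * X ^ (p - 1 - i)) * gg x e1 e2 e3 ^ i * FF p x e1 e2 e3 β j := by
          simp only [mul_assoc]
      _ = (X ^ (p - 1 - i) * C (algebraMap K R ((β ^ i) ^ j))) * gg x e1 e2 e3 ^ i * FF p x e1 e2 e3 β j := by
          rw [((Polynomial.commute_X (C (algebraMap K R ((β ^ i) ^ j)))).pow_left (p - 1 - i)).eq]
      _ = X ^ (p - 1 - i) * ((C (algebraMap K R ((β ^ i) ^ j)) * gg x e1 e2 e3 ^ i) * FF p x e1 e2 e3 β j) := by
          simp only [mul_assoc]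
      _ = X ^ (p - 1) * FF p x e1 e2 e3 β j := by
          rw [h1, ← mul_assoc, ← pow_add]
          congr 2
          omega
  rw [Finset.sum_congr rfl h2, Finset.sum_const, Finset.card_range, nsmul_eq_mul, mul_assoc]
  congr 1

theorem Data.FF_ev (D : Data p h x y e1 e2 e3 β ω) (j : ℕ) (hj : j < p) :
    ev (ω ^ j) (FF p x e1 e2 e3 β j) = 0 := by
  have hω : ω ≠ 0 := D.om.ne_zero D.prime.ne_zero
  have h1 := D.reg j hj
  have h2 : ev (ω ^ j) (FF p x e1 e2 e3 β j) =
      (ω ^ j) ^ (p - 1) • ∑ i ∈ Finset.range p, (x * (β ^ j • tt ω e1 e2 e3 j)) ^ i := by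
    unfold FF
    rw [map_sum, Finset.smul_sum]
    refine Finset.sum_congr rfl fun i hi => ?_
    have hi' := Finset.mem_range.1 hi
    rw [map_mul, ev_C, map_mul (ev (ω ^ j)), map_pow (ev (ω ^ j)), map_pow (ev (ω ^ j)), ev_X, ev_gg _ _ _ _ hω,
      mul_smul_comm, _root_.smul_pow, _root_.smul_pow, ← map_pow (algebraMap K R) (ω ^ j), ← Algebra.smul_def,
      ← Algebra.smul_def, smul_smul, smul_smul, smul_smul]
    congr 1
    have h3 : (ω ^ j) ^ (p - 1) = (ω ^ j) ^ (p - 1 - i) * (ω ^ j) ^ i := by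
      rw [← pow_add]
      congr 1
      omega
    rw [h3, ← pow_mul β i j, ← pow_mul β j i, mul_comm i j]
    ring
  rw [h2, h1, smul_zero]

/-- the algebra is zero -/
theorem Data.absurd (D : Data p h x y e1 e2 e3 β ω) : (1 : R) = 0 := by
  have hp := D.prime
  have hω : ω ≠ 0 := D.om.ne_zero hp.ne_zero
  have h1 : ∀ j < p, FF p x e1 e2 e3 β j = 0 := fun j hj =>
    idem_zero D.pK (ω ^ j) (pow_ne_zero _ hω) _ (D.FF_sq j) (D.FF_ev j hj)
  have h2 : ∑ j ∈ Finset.range p, FF p x e1 e2 e3 β j = C (algebraMap K R (p : K)) * X ^ (p - 1) := by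
    unfold FF
    rw [Finset.sum_comm, Finset.sum_eq_single 0]
    · simp only [pow_zero, one_pow, map_one, one_mul, mul_one, Nat.sub_zero, Finset.sum_const, Finset.card_range,
        nsmul_eq_mul, map_natCast]
    · intro i hi hi0
      rw [← Finset.sum_mul, ← map_sum, ← map_sum]
      have h3 : β ^ i ≠ 1 := by
        have h4 : IsPrimitiveRoot β p := by
          have : Fact p.Prime := ⟨hp⟩
          exact (IsPrimitiveRoot.iff_orderOf).2 (orderOf_eq_prime D.bp D.b1)
        exact h4.pow_ne_one_of_pos_of_lt hi0 (Finset.mem_range.1 hi)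
      have h4 := geom_sum_mul (β ^ i) p
      rw [← pow_mul, mul_comm i p, pow_mul, D.bp, one_pow, sub_self] at h4
      rw [(mul_eq_zero.1 h4).resolve_right (sub_ne_zero.2 h3), map_zero, map_zero, zero_mul]
    · intro h3
      exact False.elim (h3 (Finset.mem_range.2 hp.pos))
  have h3 : C (algebraMap K R (p : K)) * X ^ (p - 1) = 0 := by
    rw [← h2]
    exact Finset.sum_eq_zero fun j hj => h1 j (Finset.mem_range.1 hj)
  have h4 := congrArg (fun P : R[X] => P.coeff (p - 1)) h3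
  simp only [Polynomial.coeff_C_mul, Polynomial.coeff_X_pow_self, mul_one, Polynomial.coeff_zero] at h4
  have h5 : (p : K) • (1 : R) = 0 := by rw [Algebra.smul_def, mul_one, h4]
  exact (smul_eq_zero.1 h5).resolve_left D.pK

end Pool.Agent.GeoProg
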