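import Pool.Agent.Lib_MP_e73b0e_gp.Main

/-! Eigenvalues: from three eigenvalues in geometric progression to the idempotents. -/

set_option autoImplicit false

open Polynomial

namespace Pool.Agent.GeoProg

variable {K R : Type} [Field K] [Ring R] [Algebra K R]

/-- `c - l` -/
def dd (c : R) (l : K) : R := c - algebraMap K R l

theorem dd_comm (c : R) (l m : K) : dd c l * dd c m = dd c m * dd c l := by
  have h : ∀ l : K, c * algebraMap K R l = algebraMap K R l * c := fun l => (Algebra.commutes l c).symm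
  have h2 : algebraMap K R l * algebraMap K R m = algebraMap K R m * algebraMap K R l := by
    rw [← map_mul, ← map_mul, mul_comm]
  unfold dd
  rw [sub_mul, mul_sub, mul_sub, sub_mul, mul_sub, mul_sub, h l, h m, h2]
  abel

/-- `l` is a nontrivial `p`-th root of unity -/
def Good (p : ℕ) (l : K) : Prop := l ^ p = 1 ∧ l ≠ 1

variable {p : ℕ} {c : R}

theorem dd_pow (c : R) (l : K) (u : R) (h : dd c l * u = 0) (i : ℕ) : c ^ i * u = l ^ i • u := by
  have h1 : c * u = l • u := by
    unfold dd at h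
    rw [sub_mul, ← Algebra.smul_def] at h
    exact sub_eq_zero.1 h
  induction i with
  | zero => simp
  | succ i ih => rw [pow_succ, mul_assoc, h1, mul_smul_comm, ih, smul_smul, pow_succ']

/-- other scalars are not eigenvalues -/
theorem kill1 (hpK : (p : K) ≠ 0) (hc : ∑ i ∈ Finset.range p, c ^ i = 0) (l : K) (hl : ¬ Good p l) (u : R)
    (h : dd c l * u = 0) : u = 0 := by
  have h1 : (∑ i ∈ Finset.range p, l ^ i) • u = 0 := by
    rw [Finset.sum_smul]
    have h2 : ∀ i ∈ Finset.range p, l ^ i • u = c ^ i * u := fun i _ => (dd_pow c l u h i).symm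
    rw [Finset.sum_congr rfl h2, ← Finset.sum_mul, hc, zero_mul]
  have h2 : ∑ i ∈ Finset.range p, l ^ i ≠ 0 := by
    by_cases hl1 : l = 1
    · rw [hl1]
      simpa using hpK
    · intro h3
      have h4 := geom_sum_mul l p
      rw [h3, zero_mul] at h4
      exact hl ⟨sub_eq_zero.1 h4.symm, hl1⟩
  exact (smul_eq_zero.1 h1).resolve_left h2

/-- eigenvalues are simple -/
theorem kill2 (hp : 0 < p) (hpK : (p : K) ≠ 0) (hc : c ^ p = 1) (l : K) (hl : Good p l) (u : R)
    (h : dd c l * (dd c l * u) = 0) : dd c l * u = 0 := by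
  set v := dd c l * u with hv
  have h1 : c * v = l • v := by
    have := dd_pow c l v h 1
    simpa using this
  have h2 : c * u = l • u + v := by
    rw [hv]
    unfold dd
    rw [sub_mul, ← Algebra.smul_def]
    abel
  have h3 : ∀ i : ℕ, c ^ (i + 1) * u = l ^ (i + 1) • u + (((i : K) + 1) * l ^ i) • v := by
    intro i
    induction i with
    | zero => simp [h2]
    | succ i ih =>
      rw [pow_succ', mul_assoc, ih, mul_add, mul_smul_comm, mul_smul_comm, h1, h2, smul_add, smul_smul, smul_smul,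
        add_assoc, ← add_smul]
      congr 2
      all_goals
        push_cast
        ring
  obtain ⟨q, hq⟩ : ∃ q, p = q + 1 := ⟨p - 1, by omega⟩
  have h4 := h3 q
  rw [← hq, hc, one_mul, hl.1, one_smul] at h4
  have h5 : (((q : K) + 1) * l ^ q) • v = 0 := by
    have := h4.symm
    rwa [add_eq_left] at this
  have h6 : ((q : K) + 1) ≠ 0 := by
    rw [hq] at hpK
    push_cast at hpK
    exact hpK
  have hl0 : l ≠ 0 := by
    intro h0
    have := hl.1
    rw [h0, zero_pow (by omega)] at this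
    exact zero_ne_one this
  exact (smul_eq_zero.1 h5).resolve_left (mul_ne_zero h6 (pow_ne_zero _ hl0))

/-- the conclusion -/
def Concl (p : ℕ) (K : Type) [Field K] {R : Type} [Ring R] [Algebra K R] (c : R) : Prop :=
  (1 : R) = 0 ∨ ∃ β ω : K, Good p β ∧ Good p ω ∧ dd c (β * ω⁻¹) * dd c β * dd c (β * ω) = 0

theorem concl_one (hpK : (p : K) ≠ 0) (hs : ∑ i ∈ Finset.range p, c ^ i = 0) {ζ : K} (hζ : Good p ζ) (l : K)
    (h : dd c l = 0) : Concl p K c := by
  by_cases hl : Good p l
  · refine Or.inr ⟨l, ζ, hl, hζ, ?_⟩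
    rw [h, mul_zero, zero_mul]
  · left
    refine kill1 hpK hs l hl 1 ?_
    rw [h, zero_mul]

theorem concl_two (hp : p.Prime) (hpK : (p : K) ≠ 0) (hc : c ^ p = 1) (hs : ∑ i ∈ Finset.range p, c ^ i = 0) {ζ : K}
    (hζ : Good p ζ) (l m : K) (h : dd c l * dd c m = 0) : Concl p K c := by
  by_cases hl : Good p l
  · by_cases hm : Good p m
    · by_cases hlm : l = m
      · subst hlm
        refine concl_one hpK hs hζ l ?_
        have h1 := kill2 hp.pos hpK hc l hl 1 (by rw [mul_one, h])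
        rwa [mul_one] at h1
      · have hm0 : m ≠ 0 := by
          intro h0
          have := hm.1
          rw [h0, zero_pow hp.ne_zero] at this
          exact zero_ne_one this
        refine Or.inr ⟨m, m⁻¹ * l, hm, ⟨?_, ?_⟩, ?_⟩
        · rw [mul_pow, inv_pow, hm.1, hl.1, inv_one, mul_one]
        · intro h1
          apply hlm
          have : m * (m⁻¹ * l) = m := by rw [h1, mul_one]
          rwa [← mul_assoc, mul_inv_cancel₀ hm0, one_mul] at this
        · have h1 : m * (m⁻¹ * l) = l := by rw [← mul_assoc, mul_inv_cancel₀ hm0, one_mul]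
          rw [h1, mul_assoc, dd_comm c m l, h, mul_zero]
    · refine concl_one hpK hs hζ l ?_
      exact kill1 hpK hs m hm _ (by rw [dd_comm, h])
  · refine concl_one hpK hs hζ m ?_
    exact kill1 hpK hs l hl _ h

theorem concl_three (hp : p.Prime) (hpK : (p : K) ≠ 0) (hc : c ^ p = 1) (hs : ∑ i ∈ Finset.range p, c ^ i = 0)
    {ζ : K} (hζ : Good p ζ) (l m k : K) (hg : l * k = m ^ 2) (h : dd c l * dd c m * dd c k = 0) : Concl p K c := by
  by_cases hl : Good p l
  swap
  · refine concl_two hp hpK hc hs hζ m k ?_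
    exact kill1 hpK hs l hl _ (by rw [← mul_assoc, h])
  by_cases hm : Good p m
  swap
  · refine concl_two hp hpK hc hs hζ l k ?_
    exact kill1 hpK hs m hm _ (by rw [← mul_assoc, dd_comm c m l, h])
  by_cases hk : Good p k
  swap
  · refine concl_two hp hpK hc hs hζ l m ?_
    exact kill1 hpK hs k hk _ (by rw [← mul_assoc, dd_comm c k l, mul_assoc, dd_comm c k m, ← mul_assoc, h])
  have hm0 : m ≠ 0 := by
    intro h0
    have := hm.1
    rw [h0, zero_pow hp.ne_zero] at this
    exact zero_ne_one this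
  have hk0 : k ≠ 0 := by
    intro h0
    have := hk.1
    rw [h0, zero_pow hp.ne_zero] at this
    exact zero_ne_one this
  by_cases hkm : k = m
  · subst hkm
    have hlk : l = k := by
      apply mul_right_cancel₀ hk0
      rw [hg, sq]
    subst hlk
    refine concl_two hp hpK hc hs hζ l l ?_
    rw [mul_assoc] at h
    exact kill2 hp.pos hpK hc l hl _ h
  · refine Or.inr ⟨m, m⁻¹ * k, hm, ⟨?_, ?_⟩, ?_⟩
    · rw [mul_pow, inv_pow, hm.1, hk.1, inv_one, mul_one]
    · intro h1
      apply hkm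
      have : m * (m⁻¹ * k) = m := by rw [h1, mul_one]
      rwa [← mul_assoc, mul_inv_cancel₀ hm0, one_mul] at this
    · have h1 : m * (m⁻¹ * k) = k := by rw [← mul_assoc, mul_inv_cancel₀ hm0, one_mul]
      have h2 : m * (m⁻¹ * k)⁻¹ = l := by
        rw [mul_inv, inv_inv, ← mul_assoc, ← sq, ← hg, mul_assoc, mul_inv_cancel₀ hk0, mul_one]
      rw [h1, h2, h]

/-- the idempotents -/
theorem idems (c : R) (l1 l2 l3 : K) (h12 : l1 ≠ l2) (h13 : l1 ≠ l3) (h23 : l2 ≠ l3)
    (h : dd c l1 * dd c l2 * dd c l3 = 0) : ∃ e1 e2 e3 : R, e1 * e1 = e1 ∧ e2 * e2 = e2 ∧ e3 * e3 = e3 ∧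
      e1 * e2 = 0 ∧ e1 * e3 = 0 ∧ e2 * e1 = 0 ∧ e2 * e3 = 0 ∧ e3 * e1 = 0 ∧ e3 * e2 = 0 ∧ e1 + e2 + e3 = 1 ∧
      dd c l1 * e1 = 0 ∧ dd c l2 * e2 = 0 ∧ dd c l3 * e3 = 0 := by
  have a12 := sub_ne_zero.2 h12
  have a13 := sub_ne_zero.2 h13
  have a23 := sub_ne_zero.2 h23
  have hx : ∀ l : K, aeval c (X - C l) = dd c l := by
    intro l
    rw [map_sub, aeval_X, aeval_C]
    rfl
  set a1 : K := ((l1 - l2) * (l1 - l3))⁻¹ with ha1
  set a2 : K := -((l1 - l2) * (l2 - l3))⁻¹ with ha2
  set a3 : K := ((l1 - l3) * (l2 - l3))⁻¹ with ha3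
  have b2 : a1 + a2 + a3 = 0 := by
    rw [ha1, ha2, ha3]
    field_simp
    ring
  have b1 : a1 * (l2 + l3) + a2 * (l1 + l3) + a3 * (l1 + l2) = 0 := by
    rw [ha1, ha2, ha3]
    field_simp
    ring
  have b0 : a1 * (l2 * l3) + a2 * (l1 * l3) + a3 * (l1 * l2) = 1 := by
    rw [ha1, ha2, ha3]
    field_simp
    ring
  have b2' : (C a1 + C a2 + C a3 : K[X]) = 0 := by rw [← map_add, ← map_add, b2, map_zero]
  have b1' : (C a1 * (C l2 + C l3) + C a2 * (C l1 + C l3) + C a3 * (C l1 + C l2) : K[X]) = 0 := by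
    rw [← map_add, ← map_add, ← map_add, ← map_mul, ← map_mul, ← map_mul, ← map_add, ← map_add, b1, map_zero]
  have b0' : (C a1 * (C l2 * C l3) + C a2 * (C l1 * C l3) + C a3 * (C l1 * C l2) : K[X]) = 1 := by
    rw [← map_mul, ← map_mul, ← map_mul, ← map_mul, ← map_mul, ← map_mul, ← map_add, ← map_add, b0, map_one]
  set q : K[X] := (X - C l1) * (X - C l2) * (X - C l3) with hq
  have hq0 : aeval c q = 0 := by
    rw [hq, map_mul, map_mul, hx, hx, hx, h]
  set E1 : K[X] := C a1 * ((X - C l2) * (X - C l3)) with hE1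
  set E2 : K[X] := C a2 * ((X - C l1) * (X - C l3)) with hE2
  set E3 : K[X] := C a3 * ((X - C l1) * (X - C l2)) with hE3
  have hsum : E1 + E2 + E3 = 1 := by
    rw [hE1, hE2, hE3]
    linear_combination (X ^ 2 : K[X]) * b2' - (X : K[X]) * b1' + b0'
  have hdvd : ∀ P Q : K[X], P = q * Q → aeval c P = 0 := by
    intro P Q hPQ
    rw [hPQ, map_mul, hq0, zero_mul]
  have o12 : aeval c (E1 * E2) = 0 := hdvd _ (C a1 * C a2 * (X - C l3)) (by rw [hE1, hE2, hq]; ring)
  have o13 : aeval c (E1 * E3) = 0 := hdvd _ (C a1 * C a3 * (X - C l2)) (by rw [hE1, hE3, hq]; ring)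
  have o23 : aeval c (E2 * E3) = 0 := hdvd _ (C a2 * C a3 * (X - C l1)) (by rw [hE2, hE3, hq]; ring)
  have o21 : aeval c (E2 * E1) = 0 := by rw [mul_comm]; exact o12
  have o31 : aeval c (E3 * E1) = 0 := by rw [mul_comm]; exact o13
  have o32 : aeval c (E3 * E2) = 0 := by rw [mul_comm]; exact o23
  have hs : aeval c E1 + aeval c E2 + aeval c E3 = 1 := by rw [← map_add, ← map_add, hsum, map_one]
  have sq1 : aeval c E1 * aeval c E1 = aeval c E1 := by
    calc aeval c E1 * aeval c E1 = aeval c E1 * (aeval c E1 + aeval c E2 + aeval c E3) := by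
          rw [mul_add, mul_add, ← map_mul _ E1 E2, ← map_mul _ E1 E3, o12, o13, add_zero, add_zero]
      _ = aeval c E1 := by rw [hs, mul_one]
  have sq2 : aeval c E2 * aeval c E2 = aeval c E2 := by
    calc aeval c E2 * aeval c E2 = aeval c E2 * (aeval c E1 + aeval c E2 + aeval c E3) := by
          rw [mul_add, mul_add, ← map_mul _ E2 E1, ← map_mul _ E2 E3, o21, o23, add_zero, zero_add]
      _ = aeval c E2 := by rw [hs, mul_one]
  have sq3 : aeval c E3 * aeval c E3 = aeval c E3 := by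
    calc aeval c E3 * aeval c E3 = aeval c E3 * (aeval c E1 + aeval c E2 + aeval c E3) := by
          rw [mul_add, mul_add, ← map_mul _ E3 E1, ← map_mul _ E3 E2, o31, o32, zero_add, zero_add]
      _ = aeval c E3 := by rw [hs, mul_one]
  refine ⟨aeval c E1, aeval c E2, aeval c E3, sq1, sq2, sq3, ?_, ?_, ?_, ?_, ?_, ?_, hs, ?_, ?_, ?_⟩
  · rw [← map_mul, o12]
  · rw [← map_mul, o13]
  · rw [← map_mul, o21]
  · rw [← map_mul, o23]
  · rw [← map_mul, o31]
  · rw [← map_mul, o32]
  · rw [← hx, ← map_mul]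
    exact hdvd _ (C a1) (by rw [hE1, hq]; ring)
  · rw [← hx, ← map_mul]
    exact hdvd _ (C a2) (by rw [hE2, hq]; ring)
  · rw [← hx, ← map_mul]
    exact hdvd _ (C a3) (by rw [hE3, hq]; ring)

/-- the theorem for algebras over a field with a primitive `p`-th root of unity -/
theorem algebra_zero (hp : p.Prime) (hp2 : p ≠ 2) (hpK : (p : K) ≠ 0) {ζ : K} (hζ : Good p ζ) (c x y : R)
    (hxy : x * y = 1) (hyx : y * x = 1) (hc : c ^ p = 1) (hs : ∑ i ∈ Finset.range p, c ^ i = 0)
    (hreg : ∀ j < p, ∑ i ∈ Finset.range p, (x * c ^ j) ^ i = 0) (l m k : K) (hg : l * k = m ^ 2)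
    (h : dd c l * dd c m * dd c k = 0) : (1 : R) = 0 := by
  rcases concl_three hp hpK hc hs hζ l m k hg h with h1 | ⟨β, ω, hβ, hω, h1⟩
  · exact h1
  have hβ0 : β ≠ 0 := by
    intro h0
    have := hβ.1
    rw [h0, zero_pow hp.ne_zero] at this
    exact zero_ne_one this
  have hω0 : ω ≠ 0 := by
    intro h0
    have := hω.1
    rw [h0, zero_pow hp.ne_zero] at this
    exact zero_ne_one this
  have hprim : IsPrimitiveRoot ω p := by
    have : Fact p.Prime := ⟨hp⟩
    exact (IsPrimitiveRoot.iff_orderOf).2 (orderOf_eq_prime hω.1 hω.2)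
  have hp3 : 2 < p := lt_of_le_of_ne hp.two_le (Ne.symm hp2)
  have hω2 : ω ^ 2 ≠ 1 := hprim.pow_ne_one_of_pos_of_lt (by norm_num) hp3
  have n12 : β * ω⁻¹ ≠ β := by
    intro h0
    apply hω.2
    have h2 : β * ω⁻¹ * ω = β * ω := by rw [h0]
    rw [mul_assoc, inv_mul_cancel₀ hω0, mul_one] at h2
    have h3 : β * ω = β * 1 := by rw [← h2, mul_one]
    exact mul_left_cancel₀ hβ0 h3
  have n23 : β ≠ β * ω := by
    intro h0
    apply hω.2
    have h3 : β * ω = β * 1 := by rw [← h0, mul_one]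
    exact mul_left_cancel₀ hβ0 h3
  have n13 : β * ω⁻¹ ≠ β * ω := by
    intro h0
    apply hω2
    have h2 : ω⁻¹ = ω := mul_left_cancel₀ hβ0 h0
    rw [sq]
    nth_rewrite 1 [← h2]
    exact inv_mul_cancel₀ hω0
  obtain ⟨e1, e2, e3, i11, i22, i33, i12, i13, i21, i23, i31, i32, isum, k1, k2, k3⟩ :=
    idems c (β * ω⁻¹) β (β * ω) n12 n13 n23 h1
  have hcj : ∀ j : ℕ, c ^ j = β ^ j • tt ω e1 e2 e3 j := by
    intro j
    calc c ^ j = c ^ j * (e1 + e2 + e3) := by rw [isum, mul_one]
      _ = (β * ω⁻¹) ^ j • e1 + β ^ j • e2 + (β * ω) ^ j • e3 := by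
        rw [mul_add, mul_add, dd_pow c _ e1 k1, dd_pow c _ e2 k2, dd_pow c _ e3 k3]
      _ = β ^ j • tt ω e1 e2 e3 j := by
        unfold tt
        rw [smul_add, smul_add, smul_smul, smul_smul, mul_pow, mul_pow]
  have hpo : p % 2 = 1 := Nat.odd_iff.1 (hp.odd_of_ne_two hp2)
  have D : Data p (p / 2) x y e1 e2 e3 β ω :=
    { p_eq := by omega
      h_pos := by omega
      prime := hp
      pK := hpK
      xy := hxy
      yx := hyx
      e11 := i11
      e22 := i22
      e33 := i33
      e12 := i12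
      e13 := i13
      e21 := i21
      e23 := i23
      e31 := i31
      e32 := i32
      sum := isum
      bp := hβ.1
      b1 := hβ.2
      om := hprim
      o1 := by
        intro h0
        rw [h0] at k1
        exact kill1 hpK hs 1 (fun h => h.2 rfl) e1 k1
      o3 := by
        intro h0
        rw [h0] at k3
        exact kill1 hpK hs 1 (fun h => h.2 rfl) e3 k3
      reg := by
        intro j hj
        rw [← hreg j hj]
        refine Finset.sum_congr rfl fun i _ => ?_
        rw [hcj j] }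
  exact D.absurd

end Pool.Agent.GeoProg
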